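import Pool.Agent.Helper46.NU.Names

/-!
Packet FN1 of MP_1fe1ca_lc : names of finite sets of natural numbers, first part.
-/

noncomputable section

namespace NU.PkFN1

open Pool.Agent.Helper97.Ku

section

variable {L : Type} [CompleteBooleanAlgebra L]

theorem bo_inf (P Q : Prop) : (bo P ⊓ bo Q : L) = bo (P ∧ Q) := by
  by_cases hP : P
  · by_cases hQ : Q
    · rw [bo_true hP, bo_true hQ, bo_true ⟨hP, hQ⟩, inf_top_eq]
    · rw [bo_false hQ, bo_false (P := P ∧ Q) (fun h => hQ h.2), inf_bot_eq]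
  · rw [bo_false hP, bo_false (P := P ∧ Q) (fun h => hP h.1), bot_inf_eq]

/-- The membership in a finite set. -/
theorem mem_fsN (x : BSet L) (t : Finset ℕ) :
    x.mem (fsN t) = ⨆ m : ℕ, (x.eq (nn m) ⊓ bo (m ∈ t)) := by
  unfold fsN
  rw [BSet.mem_mk]
  apply le_antisymm
  · refine iSup_le fun m => ?_
    refine le_trans ?_ (le_iSup _ m.1)
    rw [bo_true m.2, inf_top_eq, top_inf_eq]
  · refine iSup_le fun m => ?_
    by_cases hm : m ∈ t
    · refine le_trans ?_ (le_iSup _ (⟨m, hm⟩ : {m // m ∈ t}))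
      rw [top_inf_eq]
      exact inf_le_left
    · rw [bo_false hm, inf_bot_eq]
      exact bot_le

theorem nn_mem_fsN (nat : G_NAT) (m : ℕ) (t : Finset ℕ) :
    (nn m : BSet L).mem (fsN t) = bo (m ∈ t) := by
  rw [mem_fsN]
  apply le_antisymm
  · refine iSup_le fun k => ?_
    rw [(nat L).2.2.1 m k, bo_inf]
    by_cases h : m = k ∧ k ∈ t
    · rw [bo_true (P := m ∈ t) (h.1 ▸ h.2)]
      exact le_top
    · rw [bo_false h]
      exact bot_le
  · by_cases hm : m ∈ t
    · refine le_trans ?_ (le_iSup _ m)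
      rw [BSet.eq_refl, top_inf_eq]
    · rw [bo_false hm]
      exact bot_le

/-- The atoms of the algebra generated by `b 0, ..., b (n - 1)`. -/
def atm (b : ℕ → L) (n : ℕ) (t : Finset ℕ) : L :=
  ⨅ m : ℕ, ⨅ _ : m < n, if m ∈ t then b m else (b m)ᶜ

theorem atm_top (b : ℕ → L) (n : ℕ) (y : L) (h : ∀ t : Finset ℕ, t ⊆ Finset.range n →
    atm b n t ≤ y) : ⊤ ≤ y := by
  induction n with
  | zero =>
    refine le_trans ?_ (h ∅ (Finset.empty_subset _))
    exact le_iInf fun m => le_iInf fun hm => absurd hm (Nat.not_lt_zero m)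
  | succ n ih =>
    refine ih fun t ht => ?_
    have hn : n ∉ t := fun hn => by simpa using ht hn
    have e1 : atm b n t ⊓ b n ≤ atm b (n + 1) (insert n t) := by
      refine le_iInf fun m => le_iInf fun hm => ?_
      by_cases hmn : m = n
      · rw [hmn, if_pos (Finset.mem_insert_self n t)]
        exact inf_le_right
      · have hlt : m < n := by omega
        refine le_trans inf_le_left (le_trans (iInf_le _ m) (le_trans (iInf_le _ hlt) ?_))
        by_cases hmt : m ∈ t
        · rw [if_pos hmt, if_pos (Finset.mem_insert_of_mem hmt)]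
        · rw [if_neg hmt, if_neg (by simp [hmn, hmt])]
    have e2 : atm b n t ⊓ (b n)ᶜ ≤ atm b (n + 1) t := by
      refine le_iInf fun m => le_iInf fun hm => ?_
      by_cases hmn : m = n
      · rw [hmn, if_neg hn]
        exact inf_le_right
      · have hlt : m < n := by omega
        exact le_trans inf_le_left (le_trans (iInf_le _ m) (iInf_le _ hlt))
    have e3 : Finset.range n ⊆ Finset.range (n + 1) := Finset.range_subset_range.2 (by omega)
    calc atm b n t = atm b n t ⊓ (b n ⊔ (b n)ᶜ) := by rw [sup_compl_eq_top, inf_top_eq]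
      _ = (atm b n t ⊓ b n) ⊔ (atm b n t ⊓ (b n)ᶜ) := inf_sup_left _ _ _
      _ ≤ y := sup_le (e1.trans (h _ (Finset.insert_subset (by simp) (ht.trans e3))))
          (e2.trans (h _ (ht.trans e3)))

theorem sub_nn (nat : G_NAT) (n : ℕ) (x : BSet L) :
    subV x (nn n) ≤ ⨆ t : Finset ℕ, ⨆ _ : t ⊆ Finset.range n, x.eq (fsN t) := by
  have key : ⊤ ≤ subV x (nn n) ⇨ (⨆ t : Finset ℕ, ⨆ _ : t ⊆ Finset.range n, x.eq (fsN t)) := by
    refine atm_top (fun m => (nn m : BSet L).mem x) n _ fun t ht => ?_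
    rw [le_himp_iff]
    refine le_trans ?_ (le_iSup₂_of_le t ht le_rfl)
    refine le_trans ?_ (BSet.ext_le x (fsN t))
    refine le_iInf fun z => le_inf ?_ ?_
    · rw [le_himp_iff]
      have h1 : subV x (nn n) ⊓ z.mem x ≤ ⨆ i : Fin n, z.eq (nn i.1) := by
        rw [← (nat L).1 n z, ← le_himp_iff]
        exact iInf_le _ z
      have h2 : atm (fun m => (nn m : BSet L).mem x) n t ⊓ subV x (nn n) ⊓ z.mem x ≤
          (atm (fun m => (nn m : BSet L).mem x) n t ⊓ z.mem x) ⊓ ⨆ i : Fin n, z.eq (nn i.1) := by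
        refine le_inf (le_inf (inf_le_left.trans inf_le_left) inf_le_right) (le_trans ?_ h1)
        exact inf_le_inf_right _ inf_le_right
      refine h2.trans ?_
      rw [inf_iSup_eq]
      refine iSup_le fun i => ?_
      by_cases hi : i.1 ∈ t
      · rw [mem_fsN]
        refine le_trans inf_le_right (le_trans ?_ (le_iSup _ i.1))
        rw [bo_true hi, inf_top_eq]
      · have h3 : atm (fun m => (nn m : BSet L).mem x) n t ≤ ((nn i.1 : BSet L).mem x)ᶜ := by
          refine le_trans (iInf_le _ i.1) (le_trans (iInf_le _ i.2) ?_)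
          rw [if_neg hi]
        have h4 : z.mem x ⊓ z.eq (nn i.1) ≤ (nn i.1 : BSet L).mem x := by
          rw [inf_comm]
          exact BSet.mem_congr_left z (nn i.1) x
        rw [inf_assoc]
        refine le_trans (inf_le_inf h3 h4) ?_
        rw [compl_inf_self]
        exact bot_le
    · rw [le_himp_iff, mem_fsN, inf_iSup_eq]
      refine iSup_le fun m => ?_
      by_cases hm : m ∈ t
      · have hmn : m < n := by simpa using ht hm
        have h3 : atm (fun m => (nn m : BSet L).mem x) n t ≤ (nn m : BSet L).mem x := by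
          refine le_trans (iInf_le _ m) (le_trans (iInf_le _ hmn) ?_)
          rw [if_pos hm]
        have h4 : (nn m : BSet L).eq z ⊓ (nn m : BSet L).mem x ≤ z.mem x :=
          BSet.mem_congr_left (nn m) z x
        refine le_trans (le_inf ?_ ?_) h4
        · rw [BSet.eq_comm']
          exact inf_le_right.trans inf_le_left
        · exact (inf_le_left.trans inf_le_left).trans h3
      · rw [bo_false hm, inf_bot_eq, inf_bot_eq]
        exact bot_le
  have h := le_himp_iff.1 key
  rwa [top_inf_eq] at h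

theorem fsN_eq (nat : G_NAT) (t t' : Finset ℕ) : (fsN t : BSet L).eq (fsN t') = bo (t = t') := by
  have key : ∀ (s s' : Finset ℕ) (m : ℕ), m ∈ s → m ∉ s' → (fsN s : BSet L).eq (fsN s') ≤ ⊥ := by
    intro s s' m hm hm'
    have h := BSet.mem_congr_right (fsN s : BSet L) (fsN s') (nn m)
    rw [nn_mem_fsN nat, nn_mem_fsN nat, bo_true hm, bo_false hm', inf_top_eq] at h
    exact h
  by_cases h : t = t'
  · rw [h, bo_true rfl, BSet.eq_refl]
  · rw [bo_false h]
    refine le_antisymm ?_ bot_le
    by_cases h1 : t ⊆ t'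
    · have h2 : ¬ t' ⊆ t := fun h2 => h (Finset.Subset.antisymm h1 h2)
      obtain ⟨m, hm, hm'⟩ := Finset.not_subset.1 h2
      rw [BSet.eq_comm']
      exact key t' t m hm hm'
    · obtain ⟨m, hm, hm'⟩ := Finset.not_subset.1 h1
      exact key t t' m hm hm'

end

theorem fn1 (nat : G_NAT) : G_FN1 := fun _ _ =>
  ⟨nn_mem_fsN nat, mem_fsN, fsN_eq nat, sub_nn nat⟩

end NU.PkFN1
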