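import Pool.Agent.Helper46.NU.Goals1

/-! Changes of `φ` at one coordinate. -/

set_option autoImplicit false

open MeasureTheory Filter Topology Set
open scoped ENNReal

noncomputable section

namespace NU.PkLBS

open Classical in
theorem mask_congr (S : Sys) (d : S.C) (z z' : Pt S) (h : ∀ c', S.see d c' → z c' = z' c') :
    mask S d z = mask S d z' := by
  funext c' m
  unfold mask
  by_cases hc : S.see d c'
  · rw [if_pos hc, if_pos hc, h c' hc]
  · rw [if_neg hc, if_neg hc]

theorem irr (S : Sys) (c : S.C) : ¬ S.see c c := fun h => by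
  have := S.wf.asymmetric (a := c) (b := c) h
  exact this h

/-- if `φ` and `φ'` agree at all coordinates but `c`, and `c` is not generic, they give the same
points -/
theorem zz_nongen (S : Sys) (c : S.C) (hc : ¬ S.gen c) (φ φ' : Ph S)
    (h : ∀ p : S.C × ℕ, p.1 ≠ c → φ p = φ' p) (ω : Om S) : zz S φ ω = zz S φ' ω := by
  funext d
  induction d using S.wf.induction with
  | _ d ih =>
    funext n
    rw [zz_eq, zz_eq, mask_congr S d _ _ ih]
    by_cases hd : d = c
    · subst hd
      rw [if_pos (Or.inr hc), if_pos (Or.inr hc)]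
    · rw [h (d, n) hd]

/-- the system where `c` is not generic -/
def S' (S : Sys) (c : S.C) : Sys := { S with gen := fun c' => S.gen c' ∧ c' ≠ c }

open Classical in
/-- the sample with given value at `c` -/
def up (S : Sys) (c : S.C) (ω : Om S) (s : ℕ × (ℕ → Bool)) : Om S := fun d => if d = c then s else ω d

theorem up_self (S : Sys) (c : S.C) (ω : Om S) (s : ℕ × (ℕ → Bool)) : up S c ω s c = s :=
  if_pos rfl

theorem up_ne (S : Sys) (c : S.C) (ω : Om S) (s : ℕ × (ℕ → Bool)) (d : S.C) (h : d ≠ c) :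
    up S c ω s d = ω d := if_neg h

theorem up_up (S : Sys) (c : S.C) (ω : Om S) (s t : ℕ × (ℕ → Bool)) :
    up S c (up S c ω s) t = up S c ω t := by
  funext d
  by_cases h : d = c
  · subst h
    rw [up_self, up_self]
  · rw [up_ne _ _ _ _ _ h, up_ne _ _ _ _ _ h, up_ne _ _ _ _ _ h]

open Classical in
theorem up_eq (S : Sys) (c : S.C) (ω : Om S) (s : ℕ × (ℕ → Bool)) :
    up S c ω s = Function.update ω c s := by
  funext d
  by_cases h : d = c
  · subst h
    rw [up_self, Function.update_self]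
  · rw [up_ne _ _ _ _ _ h, Function.update_of_ne h]

/-- the point with given real at `c` -/
def H (S : Sys) (c : S.C) (φ : Ph S) (ω : Om S) (v : ℕ → Bool) : Pt S :=
  zz (S' S c) φ (up S c ω (0, v))

open Classical in
theorem H_eq (S : Sys) (c : S.C) (φ : Ph S) (ω : Om S) (v : ℕ → Bool) (d : S.C) (n : ℕ) :
    H S c φ ω v d n = if d = c then v n else if n < (ω d).1 ∨ ¬ S.gen d then (ω d).2 n else
      (φ (d, n)).1 (mask S d (H S c φ ω v)) := by
  have e := zz_eq (S' S c) φ (up S c ω (0, v)) d n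
  by_cases hd : d = c
  · subst hd
    rw [if_pos (Or.inr (fun h : (S' S d).gen d => h.2 rfl))] at e
    rw [if_pos rfl]
    refine e.trans ?_
    rw [up_self]
  · rw [up_ne S c ω _ d hd] at e
    rw [if_neg hd]
    refine e.trans ?_
    by_cases hn : n < (ω d).1 ∨ ¬ S.gen d
    · rw [if_pos hn]
      refine if_pos ?_
      exact hn.imp id (fun h h' => h h'.1)
    · rw [if_neg hn]
      refine if_neg ?_
      rintro (h | h)
      · exact hn (Or.inl h)
      · exact h ⟨by_contra fun h' => hn (Or.inr h'), hd⟩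

open Classical in
theorem zz_H (S : Sys) (c : S.C) (hc : S.gen c) (φ : Ph S) (ω : Om S) :
    zz S φ ω = H S c φ ω (fun n => if n < (ω c).1 then (ω c).2 n else
      (φ (c, n)).1 (mask S c (zz S φ ω))) := by
  funext d
  induction d using S.wf.induction with
  | _ d ih =>
    funext n
    rw [zz_eq, H_eq, ← mask_congr S d _ _ ih]
    by_cases hd : d = c
    · subst hd
      rw [if_pos rfl]
      by_cases hn : n < (ω d).1
      · rw [if_pos (Or.inl hn), if_pos hn]
      · rw [if_neg (by rintro (h | h) <;> contradiction), if_neg hn]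
    · rw [if_neg hd]

theorem H_congr (S : Sys) (c : S.C) (φ φ' : Ph S) (h : ∀ p : S.C × ℕ, p.1 ≠ c → φ p = φ' p)
    (ω : Om S) (v : ℕ → Bool) : H S c φ ω v = H S c φ' ω v := by
  unfold H
  exact zz_nongen (S' S c) c (fun h1 => h1.2 rfl) φ φ' h _

theorem H_update (S : Sys) (c : S.C) (φ : Ph S) (ω : Om S) (v : ℕ → Bool)
    (s : ℕ × (ℕ → Bool)) : H S c φ (up S c ω s) v = H S c φ ω v := by
  unfold H
  rw [up_up]

theorem mask_update (loc : G_LOC) (S : Sys) (c : S.C) (φ φ' : Ph S)
    (h : ∀ p : S.C × ℕ, p.1 ≠ c → φ p = φ' p) (ω : Om S) (s : ℕ × (ℕ → Bool)) :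
    mask S c (zz S φ' (up S c ω s)) = mask S c (zz S φ ω) := by
  refine mask_congr S c _ _ fun c' hc' => ?_
  have hne : ∀ d, S.see c d → d ≠ c := fun d hd h => irr S c (by rw [h] at hd; exact hd)
  exact loc S {d | S.see c d} (fun d hd d' hd' => S.tr hd hd') φ' φ _ ω
    (fun d hd n => (h (d, n) (hne d hd)).symm)
    (fun d hd => up_ne S c ω s d (hne d hd)) c' hc'

open Classical in
theorem H_meas (mz : G_MZ) (S : Sys) (c : S.C) (φ : Ph S) (ω : Om S) :
    Measurable (H S c φ ω) := by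
  have h1 : Measurable (fun v : ℕ → Bool => ((0 : ℕ), v)) := measurable_prodMk_left
  have h2 : Measurable (fun v : ℕ → Bool => Function.update ω c ((0 : ℕ), v)) :=
    (measurable_update ω (a := c)).comp h1
  have h3 : H S c φ ω = fun v => zz (S' S c) φ (Function.update ω c ((0 : ℕ), v)) := by
    funext v
    unfold H
    rw [up_eq]
    rfl
  rw [h3]
  exact (mz (S' S c) φ).comp h2

open Classical in
theorem pr_eq (upd : G_UPD) (loc : G_LOC) (mz : G_MZ) (S : Sys) (c : S.C) (hc : S.gen c)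
    (φ φ₀ : Ph S) (h : ∀ p : S.C × ℕ, p.1 ≠ c → φ₀ p = φ p)
    (K : Set (Pt S)) (hK : MeasurableSet K) :
    pr S φ K = ∫⁻ ω, rho {s | (fun n => if n < s.1 then s.2 n else
      (φ (c, n)).1 (mask S c (zz S φ₀ ω))) ∈ {v | H S c φ₀ ω v ∈ K}} ∂(PP S) := by
  have hE : MeasurableSet {ω | zz S φ ω ∈ K} := mz S φ hK
  have hf : Measurable (fun p : (ℕ × (ℕ → Bool)) × (S.C → ℕ × (ℕ → Bool)) =>
      Function.update p.2 c p.1) := measurable_update'.comp measurable_swap
  have h1 : PP S = Measure.map (fun p : (ℕ × (ℕ → Bool)) × (S.C → ℕ × (ℕ → Bool)) =>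
      Function.update p.2 c p.1) (rho.prod (PP S)) := (upd S.C (ℕ × (ℕ → Bool)) rho c).symm
  have h2 : pr S φ K = (rho.prod (PP S)) ((fun p : (ℕ × (ℕ → Bool)) × (S.C → ℕ × (ℕ → Bool)) =>
      Function.update p.2 c p.1) ⁻¹' {ω | zz S φ ω ∈ K}) := by
    rw [← Measure.map_apply hf hE, ← h1]
    rfl
  rw [h2, Measure.prod_apply_symm (hf hE)]
  refine lintegral_congr fun ω => ?_
  congr 1
  ext s
  have h3 : zz S φ (Function.update ω c s) = H S c φ₀ ω (fun n => if n < s.1 then s.2 n else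
      (φ (c, n)).1 (mask S c (zz S φ₀ ω))) := by
    rw [← up_eq, zz_H S c hc φ (up S c ω s), H_update, mask_update loc S c φ₀ φ h,
      ← H_congr S c φ₀ φ h, up_self]
  show zz S φ (Function.update ω c s) ∈ K ↔ _
  rw [h3]
  rfl

theorem lbs (lb1 : G_LB1) (upd : G_UPD) (loc : G_LOC) (mz : G_MZ) : G_LBS := by
  intro S c l φ φ' h K hK
  have h' : ∀ p : S.C × ℕ, p.1 ≠ c → φ p = φ' p := fun p hp => h p fun h1 => hp h1.1
  by_cases hc : S.gen c
  · rw [pr_eq upd loc mz S c hc φ' φ h' K hK, pr_eq upd loc mz S c hc φ φ (fun _ _ => rfl) K hK]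
    have htop : (1 + 2 ^ (2 * l + 1) : ℝ≥0∞) ≠ ⊤ :=
      ENNReal.add_ne_top.mpr ⟨ENNReal.one_ne_top, ENNReal.pow_ne_top (by norm_num)⟩
    rw [← lintegral_const_mul' _ _ htop]
    refine lintegral_mono fun ω => ?_
    refine lb1 l _ _ (fun n hn => ?_) _ (H_meas mz S c φ ω hK)
    rw [h (c, n) fun h1 => absurd h1.2 (not_lt.mpr hn)]
  · have h1 : zz S φ' = zz S φ := by
      funext ω
      exact (zz_nongen S c hc φ φ' h' ω).symm
    unfold pr
    rw [h1]
    exact le_mul_of_one_le_left zero_le (le_add_right le_rfl)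

end NU.PkLBS

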